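import Mathlib

/-!
# MP_d9e015: every term of the Lenstra (Göbel) sequence is a 2-adic integer.

With `y n = n * x n` one has `y (n+1) = y n + (y n / n)^2`.  The key is that
`y (2^k) = 4^(k-1) * (odd)` for all `k ≥ 9`, proved by a self-similar induction: the steps
`n = m 2^l` with small `l` change `y` by a highly divisible amount.
-/

namespace Pool.Agent.Results.MP_d9e015_nt.TwoAdic

open Finset

/-- The sequence `x 0 = 1`, `x n = (1 + x 0 ^ 2 + ... + x (n-1) ^ 2) / n`. -/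
def x : ℕ → ℚ
  | 0 => 1
  | (n + 1) => (1 + ∑ i : Fin (n + 1), x i.1 ^ 2) / ((n : ℚ) + 1)
decreasing_by exact i.2

lemma x_succ (n : ℕ) : ((n : ℚ) + 1) * x (n + 1) = 1 + ∑ i ∈ Finset.range (n + 1), x i ^ 2 := by
  rw [x, Finset.sum_range (fun i => x i ^ 2)]
  field_simp

lemma x_rec (n : ℕ) (hn : 1 ≤ n) : ((n : ℚ) + 1) * x (n + 1) = x n * (x n + n) := by
  obtain ⟨m, rfl⟩ : ∃ m, n = m + 1 := ⟨n - 1, by omega⟩
  rw [x_succ, Finset.sum_range_succ, ← add_assoc, ← x_succ m]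
  push_cast
  ring

/-! ## 2-adic preliminaries -/

/-- `x n` as a `2`-adic number. -/
noncomputable def X (n : ℕ) : ℚ_[2] := ((x n : ℚ) : ℚ_[2])

lemma X_rec (n : ℕ) (hn : 1 ≤ n) : ((n : ℚ_[2]) + 1) * X (n + 1) = X n * (X n + n) := by
  have := congrArg (fun q : ℚ => (q : ℚ_[2])) (x_rec n hn)
  simpa [X] using this

/-- `y n = n x n`. -/
noncomputable def y (n : ℕ) : ℚ_[2] := n * X n

lemma y_rec (n : ℕ) (hn : 1 ≤ n) : y (n + 1) = y n + (y n / n) ^ 2 := by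
  have hn0 : (n : ℚ_[2]) ≠ 0 := by
    exact_mod_cast (by omega : n ≠ 0)
  unfold y
  rw [mul_div_cancel_left₀ _ hn0]
  push_cast
  rw [X_rec n hn]
  ring

lemma exists_inv {m : ℕ} (hm : ¬ 2 ∣ m) : ∃ t : ℤ_[2], (m : ℤ_[2]) * t = 1 := by
  have hu : IsUnit (m : ℤ_[2]) := by
    rw [PadicInt.isUnit_iff]
    have h1 : ‖(m : ℤ_[2])‖ ≤ 1 := PadicInt.norm_le_one _
    rcases h1.lt_or_eq with h2 | h2
    · exfalso
      have := (PadicInt.norm_int_lt_one_iff_dvd (p := 2) (m : ℤ)).1 (by simpa using h2)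
      exact hm (by exact_mod_cast this)
    · exact h2
  exact ⟨_, hu.mul_val_inv⟩

lemma exists_even (r : ℤ_[2]) : ∃ s : ℤ_[2], r ^ 2 + r = 2 * s := by
  have h : (2 : ℤ_[2]) ∣ r ^ 2 + r := by
    have h2 : ((2 : ℕ) : ℤ_[2]) ∣ r ^ 2 + r := by
      rw [← Ideal.mem_span_singleton, ← PadicInt.maximalIdeal_eq_span_p, ← PadicInt.ker_toZMod,
        RingHom.mem_ker, map_add, map_pow]
      generalize PadicInt.toZMod r = a
      revert a; decide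
    simpa using h2
  obtain ⟨s, hs⟩ := h
  exact ⟨s, hs⟩

lemma even_or_odd (r : ℤ_[2]) : (∃ s, r = 2 * s) ∨ (∃ s, r = 1 + 2 * s) := by
  have key : ∀ r : ℤ_[2], PadicInt.toZMod r = 0 → ∃ s, r = 2 * s := by
    intro r hr
    have h2 : ((2 : ℕ) : ℤ_[2]) ∣ r := by
      rw [← Ideal.mem_span_singleton, ← PadicInt.maximalIdeal_eq_span_p, ← PadicInt.ker_toZMod,
        RingHom.mem_ker]
      exact hr
    obtain ⟨s, hs⟩ := h2
    exact ⟨s, by simpa using hs⟩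
  have h01 : PadicInt.toZMod r = 0 ∨ PadicInt.toZMod r = 1 := by
    generalize PadicInt.toZMod r = a
    revert a; decide
  rcases h01 with h | h
  · exact Or.inl (key r h)
  · right
    obtain ⟨s, hs⟩ := key (r - 1) (by rw [map_sub, h, map_one, sub_self])
    exact ⟨s, by linear_combination hs⟩

/-- the square of an odd `2`-adic integer is `1` modulo `8`. -/
lemma odd_sq (r : ℤ_[2]) : ∃ s : ℤ_[2], (1 + 2 * r) ^ 2 = 1 + 8 * s := by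
  obtain ⟨s, hs⟩ := exists_even r
  exact ⟨s, by linear_combination 4 * hs⟩

/-- an inverse of an odd number is odd -/
lemma inv_odd {m : ℕ} {t : ℤ_[2]} (h : (m : ℤ_[2]) * t = 1) : ∃ r, t = 1 + 2 * r := by
  rcases even_or_odd t with ⟨s, hs⟩ | h'
  · exfalso
    have h3 : ((2 : ℕ) : ℤ_[2]) ∣ 1 := ⟨m * s, by rw [← h, hs]; push_cast; ring⟩
    rw [← Ideal.mem_span_singleton, ← PadicInt.maximalIdeal_eq_span_p, ← PadicInt.ker_toZMod,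
      RingHom.mem_ker, map_one] at h3
    exact absurd h3 (by decide)
  · exact h'

lemma inv_sq {m : ℕ} {t : ℤ_[2]} (h : (m : ℤ_[2]) * t = 1) : ∃ s, t ^ 2 = 1 + 8 * s := by
  obtain ⟨r, rfl⟩ := inv_odd h
  exact odd_sq r

/-! ## Single steps and gaps -/

lemma event (e v m : ℕ) (hm : ¬ 2 ∣ m) (hv : v ≤ e) (A : ℤ_[2]) (t : ℤ_[2])
    (ht : (m : ℤ_[2]) * t = 1) (h : y (2 ^ v * m) = 4 ^ e * A) :
    y (2 ^ v * m + 1) = 4 ^ e * ((A + 4 ^ (e - v) * A ^ 2 * t ^ 2 : ℤ_[2]) : ℚ_[2]) := by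
  have hm0 : m ≠ 0 := by rintro rfl; exact hm (by norm_num)
  have h1 : 1 ≤ 2 ^ v * m := Nat.one_le_iff_ne_zero.2 (by positivity)
  rw [y_rec _ h1, h]
  have ht' : (m : ℚ_[2]) * (t : ℚ_[2]) = 1 := by
    have := congrArg (fun z : ℤ_[2] => (z : ℚ_[2])) ht
    simpa using this
  have hmq : (m : ℚ_[2]) ≠ 0 := left_ne_zero_of_mul_eq_one ht'
  have htq : (t : ℚ_[2]) = (m : ℚ_[2])⁻¹ := eq_inv_of_mul_eq_one_right ht'
  push_cast
  rw [htq]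
  have h4 : (4 : ℚ_[2]) ^ e = 4 ^ (e - v) * (2 ^ v) ^ 2 := by
    rw [← pow_mul, mul_comm v 2, pow_mul, ← mul_comm]
    norm_num
    rw [← pow_add]; congr 1; omega
  have h2 : ((2 : ℚ_[2]) ^ v) ≠ 0 := pow_ne_zero _ (by norm_num)
  have h44 : ((4 : ℤ_[2]) : ℚ_[2]) = 4 := by
    have := PadicInt.coe_natCast (p := 2) 4
    simpa using this
  rw [h44, div_pow, mul_pow, mul_pow, h4]
  generalize (4 : ℚ_[2]) ^ (e - v) = c
  field_simp

/-- no multiple of `2^l` strictly inside the gap -/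
lemma gap (e l M : ℕ) (hl : l ≤ e) (A : ℤ_[2]) (h : y (2 ^ l * M + 1) = 4 ^ e * A) :
    ∀ i, 1 ≤ i → i ≤ 2 ^ l → ∃ z : ℤ_[2],
      y (2 ^ l * M + i) = 4 ^ e * ((A + 4 ^ (e + 1 - l) * A ^ 2 * z : ℤ_[2]) : ℚ_[2]) := by
  intro i hi
  induction i, hi using Nat.le_induction with
  | base =>
    intro _
    exact ⟨0, by rw [h]; push_cast; ring⟩
  | succ i hi ih =>
    intro hi2
    obtain ⟨z, hz⟩ := ih (by omega)
    have hn0 : 2 ^ l * M + i ≠ 0 := by omega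
    obtain ⟨v, m, hm, hvm⟩ := Nat.exists_eq_pow_mul_and_not_dvd hn0 2 (by norm_num)
    have hvl : v < l := by
      by_contra hcon
      have h1 : 2 ^ l ∣ 2 ^ l * M + i := by
        rw [hvm]
        exact dvd_mul_of_dvd_left (pow_dvd_pow 2 (by omega)) _
      have h2 : 2 ^ l ∣ i := (Nat.dvd_add_right (dvd_mul_right _ _)).1 h1
      have := Nat.le_of_dvd (by omega) h2
      omega
    obtain ⟨t, ht⟩ := exists_inv hm
    have hev := event e v m hm (by omega) _ t ht (by rw [← hvm]; exact hz)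
    rw [← hvm] at hev
    refine ⟨z + (1 + 4 ^ (e + 1 - l) * A * z) ^ 2 * t ^ 2 * 4 ^ (l - 1 - v), ?_⟩
    have h4 : (4 : ℤ_[2]) ^ (e - v) = 4 ^ (e + 1 - l) * 4 ^ (l - 1 - v) := by
      rw [← pow_add]; congr 1; omega
    rw [← add_assoc, hev, h4]
    generalize (4 : ℤ_[2]) ^ (e + 1 - l) = c
    generalize (4 : ℤ_[2]) ^ (l - 1 - v) = d
    have h5 : A + c * A ^ 2 * z + c * d * (A + c * A ^ 2 * z) ^ 2 * t ^ 2 =
        A + c * A ^ 2 * (z + (1 + c * A * z) ^ 2 * t ^ 2 * d) := by ring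
    rw [h5]

/-! ## Arithmetic modulo small powers of two -/

/-- one full dyadic block -/
lemma block (f : ℕ) (r : ℤ_[2]) (h : y (2 ^ (f + 4)) = 4 ^ (f + 3) * ((1 + 2 * r : ℤ_[2]) : ℚ_[2])) :
    (∃ r' : ℤ_[2], y (2 ^ (f + 5)) = 4 ^ (f + 4) * ((1 + 2 * r' : ℤ_[2]) : ℚ_[2])) ∧
    ∀ n, 2 ^ (f + 4) < n → n ≤ 2 ^ (f + 5) → ∃ A : ℤ_[2], y n = 4 ^ (f + 2) * (A : ℚ_[2]) := by
  obtain ⟨t9, ht9⟩ := exists_inv (m := 9) (by norm_num)
  obtain ⟨t5, ht5⟩ := exists_inv (m := 5) (by norm_num)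
  obtain ⟨t3, ht3⟩ := exists_inv (m := 3) (by norm_num)
  obtain ⟨t25, ht25⟩ := exists_inv (m := 25) (by norm_num)
  obtain ⟨t13, ht13⟩ := exists_inv (m := 13) (by norm_num)
  obtain ⟨t27, ht27⟩ := exists_inv (m := 27) (by norm_num)
  obtain ⟨t7, ht7⟩ := exists_inv (m := 7) (by norm_num)
  obtain ⟨w9, hw9⟩ := inv_sq ht9
  obtain ⟨w5, hw5⟩ := inv_sq ht5
  obtain ⟨w25, hw25⟩ := inv_sq ht25
  obtain ⟨w13, hw13⟩ := inv_sq ht13
  obtain ⟨w27, hw27⟩ := inv_sq ht27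
  obtain ⟨w7, hw7⟩ := inv_sq ht7
  push_cast at ht9 ht5 ht3 ht25 ht13 ht27 ht7
  have hE1 : 2 ^ (f + 1) = 2 * 2 ^ f := by ring
  have hE2 : 2 ^ (f + 2) = 4 * 2 ^ f := by ring
  have hE4 : 2 ^ (f + 4) = 16 * 2 ^ f := by ring
  have hE5 : 2 ^ (f + 5) = 32 * 2 ^ f := by ring
  have hpos : 0 < 2 ^ f := by positivity
  have c2 : (4 : ℤ_[2]) ^ (f + 2 + 1 - (f + 1)) = 16 := by
    rw [show f + 2 + 1 - (f + 1) = 2 by omega]; norm_num
  have c1 : (4 : ℤ_[2]) ^ (f + 2 + 1 - (f + 2)) = 4 := by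
    rw [show f + 2 + 1 - (f + 2) = 1 by omega]; norm_num
  have c3 : (4 : ℤ_[2]) ^ (f + 2 + 1 - f) = 64 := by
    rw [show f + 2 + 1 - f = 3 by omega]; norm_num
  have d1 : (4 : ℤ_[2]) ^ (f + 2 - (f + 1)) = 4 := by
    rw [show f + 2 - (f + 1) = 1 by omega]; norm_num
  have d0 : (4 : ℤ_[2]) ^ (f + 2 - (f + 2)) = 1 := by
    rw [show f + 2 - (f + 2) = 0 by omega]; norm_num
  have d2 : (4 : ℤ_[2]) ^ (f + 2 - f) = 16 := by
    rw [show f + 2 - f = 2 by omega]; norm_num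
  -- step at `4`
  have h4 : ∃ q : ℤ_[2], y (2 ^ (f + 1) * 8 + 1) = 4 ^ (f + 2) * ((5 + 8 * q : ℤ_[2]) : ℚ_[2]) := by
    obtain ⟨s, hs⟩ := odd_sq r
    refine ⟨s + r, ?_⟩
    have hn : 2 ^ (f + 1) * 8 = 2 ^ (f + 4) := by rw [hE1, hE4]; ring
    rw [hn, y_rec _ Nat.one_le_two_pow, h]
    have e1 : (5 + 8 * (s + r) : ℤ_[2]) = 4 * (1 + 2 * r) + (1 + 2 * r) ^ 2 := by
      rw [hs]; ring
    rw [e1]
    generalize (1 + 2 * r : ℤ_[2]) = u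
    have h44 : ((4 : ℤ_[2]) : ℚ_[2]) = 4 := by
      have := PadicInt.coe_natCast (p := 2) 4
      simpa using this
    push_cast
    rw [h44]
    have e2 : (4 : ℚ_[2]) ^ (f + 3) = 4 * 4 ^ (f + 2) := by ring
    have e3 : (2 : ℚ_[2]) ^ (f + 4) = 4 * 2 ^ (f + 2) := by ring
    have e4 : (4 : ℚ_[2]) ^ (f + 2) = (2 ^ (f + 2)) ^ 2 := by
      rw [← pow_mul, mul_comm (f + 2) 2, pow_mul]; norm_num
    rw [e2, e3, e4]
    have h2 : ((2 : ℚ_[2]) ^ (f + 2)) ≠ 0 := pow_ne_zero _ (by norm_num)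
    generalize (2 : ℚ_[2]) ^ (f + 2) = c at h2
    field_simp
  obtain ⟨q, hq⟩ := h4
  -- gap from `4` to `4.5`
  have g1 := gap (f + 2) (f + 1) 8 (by omega) _ hq
  rw [c2] at g1
  obtain ⟨z1, hz1⟩ := g1 (2 ^ (f + 1)) Nat.one_le_two_pow le_rfl
  rw [show 2 ^ (f + 1) * 8 + 2 ^ (f + 1) = 2 ^ (f + 1) * 9 by ring] at hz1
  have a1 : ∃ q1 : ℤ_[2], 5 + 8 * q + 16 * (5 + 8 * q) ^ 2 * z1 = 5 + 8 * q1 :=
    ⟨q + 2 * (5 + 8 * q) ^ 2 * z1, by ring⟩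
  obtain ⟨q1, hq1⟩ := a1
  rw [hq1] at hz1
  have ev1 := event (f + 2) (f + 1) 9 (by norm_num) (by omega) _ t9 (by push_cast; exact ht9) hz1
  rw [d1] at ev1
  obtain ⟨s1, hs1⟩ := odd_sq (2 + 4 * q1)
  have a2 : ∃ q2 : ℤ_[2], 5 + 8 * q1 + 4 * (5 + 8 * q1) ^ 2 * t9 ^ 2 = 1 + 8 * q2 := by
    refine ⟨1 + q1 + 4 * s1 + 4 * w9 + 32 * s1 * w9, ?_⟩
    rw [hw9, show (5 + 8 * q1 : ℤ_[2]) = 1 + 2 * (2 + 4 * q1) by ring, hs1]
    ring
  obtain ⟨q2, hq2⟩ := a2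
  rw [hq2] at ev1
  have g2 := gap (f + 2) (f + 1) 9 (by omega) _ ev1
  rw [c2] at g2
  obtain ⟨z2, hz2⟩ := g2 (2 ^ (f + 1)) Nat.one_le_two_pow le_rfl
  rw [show 2 ^ (f + 1) * 9 + 2 ^ (f + 1) = 2 ^ (f + 2) * 5 by ring] at hz2
  have a3 : ∃ q3 : ℤ_[2], 1 + 8 * q2 + 16 * (1 + 8 * q2) ^ 2 * z2 = 1 + 8 * q3 :=
    ⟨q2 + 2 * (1 + 8 * q2) ^ 2 * z2, by ring⟩
  obtain ⟨q3, hq3⟩ := a3
  rw [hq3] at hz2
  -- step at `5`
  have ev2 := event (f + 2) (f + 2) 5 (by norm_num) (by omega) _ t5 (by push_cast; exact ht5) hz2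
  rw [d0] at ev2
  have a4 : ∃ q4 : ℤ_[2], 1 + 8 * q3 + 1 * (1 + 8 * q3) ^ 2 * t5 ^ 2 = 2 * (1 + 4 * q4) := by
    refine ⟨3 + 27 * q3 + 8 * q3 ^ 2 + 2 * (1 + 8 * q3) * (13 + 4 * q3) * w5, ?_⟩
    have e1 : 1 + 8 * q3 + 1 * (1 + 8 * q3) ^ 2 * t5 ^ 2 =
        2 * ((1 + 8 * q3) * (13 + 4 * q3) * t5 ^ 2) := by
      linear_combination (-(1 + 8 * q3)) * (5 * t5 + 1) * ht5
    rw [e1, hw5]
    ring
  obtain ⟨q4, hq4⟩ := a4
  rw [hq4] at ev2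
  have g3 := gap (f + 2) (f + 2) 5 (by omega) _ ev2
  rw [c1] at g3
  obtain ⟨z3, hz3⟩ := g3 (2 ^ (f + 2)) Nat.one_le_two_pow le_rfl
  rw [show 2 ^ (f + 2) * 5 + 2 ^ (f + 2) = 2 ^ (f + 3) * 3 by ring] at hz3
  have a5 : ∃ q5 : ℤ_[2], 2 * (1 + 4 * q4) + 4 * (2 * (1 + 4 * q4)) ^ 2 * z3 = 2 * (1 + 4 * q5) :=
    ⟨q4 + 2 * (1 + 4 * q4) ^ 2 * z3, by ring⟩
  obtain ⟨q5, hq5⟩ := a5
  rw [hq5] at hz3
  -- step at `6`
  have h6 : ∃ q6 : ℤ_[2], y (2 ^ (f + 3) * 3 + 1) = 4 ^ (f + 2) * ((27 + 32 * q6 : ℤ_[2]) : ℚ_[2]) := by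
    obtain ⟨s, hs⟩ := exists_even q5
    refine ⟨-7 * t3 ^ 2 + (2 * q5 + s) * t3 ^ 2, ?_⟩
    have e1 : (27 + 32 * (-7 * t3 ^ 2 + (2 * q5 + s) * t3 ^ 2) : ℤ_[2]) =
        2 * (1 + 4 * q5) + (1 + 4 * q5) ^ 2 * t3 ^ 2 := by
      linear_combination (-27 + 2 * (1 + 4 * q5)) * (3 * t3 + 1) * ht3 - 16 * t3 ^ 2 * hs
    rw [y_rec _ (Nat.one_le_iff_ne_zero.2 (by positivity)), hz3, e1]
    generalize (1 + 4 * q5 : ℤ_[2]) = u
    have ht' : (3 : ℚ_[2]) * (t3 : ℚ_[2]) = 1 := by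
      have := congrArg (fun z : ℤ_[2] => (z : ℚ_[2])) ht3
      have h33 : ((3 : ℤ_[2]) : ℚ_[2]) = 3 := by
        have := PadicInt.coe_natCast (p := 2) 3
        simpa using this
      simpa [h33] using this
    have htq : (t3 : ℚ_[2]) = (3 : ℚ_[2])⁻¹ := eq_inv_of_mul_eq_one_right ht'
    have h22 : ((2 : ℤ_[2]) : ℚ_[2]) = 2 := by
      have := PadicInt.coe_natCast (p := 2) 2
      simpa using this
    push_cast
    rw [htq, h22]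
    have e3 : (2 : ℚ_[2]) ^ (f + 3) = 2 * 2 ^ (f + 2) := by ring
    have e4 : (4 : ℚ_[2]) ^ (f + 2) = (2 ^ (f + 2)) ^ 2 := by
      rw [← pow_mul, mul_comm (f + 2) 2, pow_mul]; norm_num
    rw [e3, e4]
    have h2 : ((2 : ℚ_[2]) ^ (f + 2)) ≠ 0 := pow_ne_zero _ (by norm_num)
    generalize (2 : ℚ_[2]) ^ (f + 2) = c at h2
    field_simp
  obtain ⟨q6, hq6⟩ := h6
  rw [show 2 ^ (f + 3) * 3 + 1 = 2 ^ f * 24 + 1 by ring] at hq6
  -- from `6` to `7`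
  have g4 := gap (f + 2) f 24 (by omega) _ hq6
  rw [c3] at g4
  obtain ⟨z4, hz4⟩ := g4 (2 ^ f) Nat.one_le_two_pow le_rfl
  rw [show 2 ^ f * 24 + 2 ^ f = 2 ^ f * 25 by ring] at hz4
  obtain ⟨q7, hq7⟩ : ∃ q7 : ℤ_[2], 27 + 32 * q6 + 64 * (27 + 32 * q6) ^ 2 * z4 = 27 + 32 * q7 :=
    ⟨q6 + 2 * (27 + 32 * q6) ^ 2 * z4, by ring⟩
  rw [hq7] at hz4
  have ev3 := event (f + 2) f 25 (by norm_num) (by omega) _ t25 (by push_cast; exact ht25) hz4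
  rw [d2] at ev3
  obtain ⟨s3, hs3⟩ := odd_sq (13 + 16 * q7)
  obtain ⟨q8, hq8⟩ : ∃ q8 : ℤ_[2], 27 + 32 * q7 + 16 * (27 + 32 * q7) ^ 2 * t25 ^ 2 = 11 + 32 * q8 := by
    refine ⟨1 + q7 + 4 * s3 + 4 * w25 + 32 * s3 * w25, ?_⟩
    rw [hw25, show (27 + 32 * q7 : ℤ_[2]) = 1 + 2 * (13 + 16 * q7) by ring, hs3]
    ring
  rw [hq8] at ev3
  have g5 := gap (f + 2) f 25 (by omega) _ ev3
  rw [c3] at g5
  obtain ⟨z5, hz5⟩ := g5 (2 ^ f) Nat.one_le_two_pow le_rfl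
  rw [show 2 ^ f * 25 + 2 ^ f = 2 ^ (f + 1) * 13 by ring] at hz5
  obtain ⟨q9, hq9⟩ : ∃ q9 : ℤ_[2], 11 + 32 * q8 + 64 * (11 + 32 * q8) ^ 2 * z5 = 11 + 32 * q9 :=
    ⟨q8 + 2 * (11 + 32 * q8) ^ 2 * z5, by ring⟩
  rw [hq9] at hz5
  have ev4 := event (f + 2) (f + 1) 13 (by norm_num) (by omega) _ t13 (by push_cast; exact ht13) hz5
  rw [d1] at ev4
  obtain ⟨s4, hs4⟩ := odd_sq (5 + 16 * q9)
  obtain ⟨q10, hq10⟩ : ∃ q10 : ℤ_[2], 11 + 32 * q9 + 4 * (11 + 32 * q9) ^ 2 * t13 ^ 2 =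
      15 + 32 * q10 := by
    refine ⟨q9 + s4 + w13 + 8 * s4 * w13, ?_⟩
    rw [hw13, show (11 + 32 * q9 : ℤ_[2]) = 1 + 2 * (5 + 16 * q9) by ring, hs4]
    ring
  rw [hq10] at ev4
  rw [show 2 ^ (f + 1) * 13 + 1 = 2 ^ f * 26 + 1 by ring] at ev4
  have g6 := gap (f + 2) f 26 (by omega) _ ev4
  rw [c3] at g6
  obtain ⟨z6, hz6⟩ := g6 (2 ^ f) Nat.one_le_two_pow le_rfl
  rw [show 2 ^ f * 26 + 2 ^ f = 2 ^ f * 27 by ring] at hz6
  obtain ⟨q11, hq11⟩ : ∃ q11 : ℤ_[2], 15 + 32 * q10 + 64 * (15 + 32 * q10) ^ 2 * z6 =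
      15 + 32 * q11 := ⟨q10 + 2 * (15 + 32 * q10) ^ 2 * z6, by ring⟩
  rw [hq11] at hz6
  have ev5 := event (f + 2) f 27 (by norm_num) (by omega) _ t27 (by push_cast; exact ht27) hz6
  rw [d2] at ev5
  obtain ⟨s5, hs5⟩ := odd_sq (7 + 16 * q11)
  obtain ⟨q12, hq12⟩ : ∃ q12 : ℤ_[2], 15 + 32 * q11 + 16 * (15 + 32 * q11) ^ 2 * t27 ^ 2 =
      31 + 32 * q12 := by
    refine ⟨q11 + 4 * s5 + 4 * w27 + 32 * s5 * w27, ?_⟩
    rw [hw27, show (15 + 32 * q11 : ℤ_[2]) = 1 + 2 * (7 + 16 * q11) by ring, hs5]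
    ring
  rw [hq12] at ev5
  have g7 := gap (f + 2) f 27 (by omega) _ ev5
  rw [c3] at g7
  obtain ⟨z7, hz7⟩ := g7 (2 ^ f) Nat.one_le_two_pow le_rfl
  rw [show 2 ^ f * 27 + 2 ^ f = 2 ^ (f + 2) * 7 by ring] at hz7
  obtain ⟨q13, hq13⟩ : ∃ q13 : ℤ_[2], 31 + 32 * q12 + 64 * (31 + 32 * q12) ^ 2 * z7 =
      31 + 32 * q13 := ⟨q12 + 2 * (31 + 32 * q12) ^ 2 * z7, by ring⟩
  rw [hq13] at hz7
  -- step at `7`
  have ev6 := event (f + 2) (f + 2) 7 (by norm_num) (by omega) _ t7 (by push_cast; exact ht7) hz7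
  rw [d0] at ev6
  obtain ⟨q14, hq14⟩ : ∃ q14 : ℤ_[2], 31 + 32 * q13 + 1 * (31 + 32 * q13) ^ 2 * t7 ^ 2 =
      16 * (1 + 2 * q14) := by
    refine ⟨77 + 111 * q13 + 32 * q13 ^ 2 + 4 * (31 + 32 * q13) * (5 + 2 * q13) * w7, ?_⟩
    have e1 : 31 + 32 * q13 + 1 * (31 + 32 * q13) ^ 2 * t7 ^ 2 =
        16 * ((31 + 32 * q13) * (5 + 2 * q13) * t7 ^ 2) := by
      linear_combination (-(31 + 32 * q13)) * (7 * t7 + 1) * ht7
    rw [e1, hw7]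
    ring
  rw [hq14] at ev6
  have g8 := gap (f + 2) (f + 2) 7 (by omega) _ ev6
  rw [c1] at g8
  obtain ⟨z8, hz8⟩ := g8 (2 ^ (f + 2)) Nat.one_le_two_pow le_rfl
  rw [show 2 ^ (f + 2) * 7 + 2 ^ (f + 2) = 2 ^ (f + 5) by ring] at hz8
  refine ⟨⟨q14 + 32 * (1 + 2 * q14) ^ 2 * z8, ?_⟩, ?_⟩
  · rw [hz8]
    have h16 : ((16 : ℤ_[2]) : ℚ_[2]) = 16 := by
      have := PadicInt.coe_natCast (p := 2) 16
      simpa using this
    have e1 : (16 * (1 + 2 * q14) + 4 * (16 * (1 + 2 * q14)) ^ 2 * z8 : ℤ_[2]) =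
        16 * (1 + 2 * (q14 + 32 * (1 + 2 * q14) ^ 2 * z8)) := by ring
    rw [e1]
    generalize (1 + 2 * (q14 + 32 * (1 + 2 * q14) ^ 2 * z8) : ℤ_[2]) = w
    push_cast
    rw [h16]
    ring
  · intro n hn1 hn2
    rw [hE1] at g1 g2
    rw [hE2] at g3 g8
    rw [hE4] at hn1
    rw [hE5] at hn2
    rcases Nat.lt_or_ge (18 * 2 ^ f) n with h18 | h18
    swap
    · obtain ⟨z, hz⟩ := g1 (n - 16 * 2 ^ f) (by omega) (by omega)
      rw [show 2 * 2 ^ f * 8 + (n - 16 * 2 ^ f) = n by omega] at hz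
      exact ⟨_, hz⟩
    rcases Nat.lt_or_ge (20 * 2 ^ f) n with h20 | h20
    swap
    · obtain ⟨z, hz⟩ := g2 (n - 18 * 2 ^ f) (by omega) (by omega)
      rw [show 2 * 2 ^ f * 9 + (n - 18 * 2 ^ f) = n by omega] at hz
      exact ⟨_, hz⟩
    rcases Nat.lt_or_ge (24 * 2 ^ f) n with h24 | h24
    swap
    · obtain ⟨z, hz⟩ := g3 (n - 20 * 2 ^ f) (by omega) (by omega)
      rw [show 4 * 2 ^ f * 5 + (n - 20 * 2 ^ f) = n by omega] at hz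
      exact ⟨_, hz⟩
    rcases Nat.lt_or_ge (25 * 2 ^ f) n with h25 | h25
    swap
    · obtain ⟨z, hz⟩ := g4 (n - 24 * 2 ^ f) (by omega) (by omega)
      rw [show 2 ^ f * 24 + (n - 24 * 2 ^ f) = n by omega] at hz
      exact ⟨_, hz⟩
    rcases Nat.lt_or_ge (26 * 2 ^ f) n with h26 | h26
    swap
    · obtain ⟨z, hz⟩ := g5 (n - 25 * 2 ^ f) (by omega) (by omega)
      rw [show 2 ^ f * 25 + (n - 25 * 2 ^ f) = n by omega] at hz
      exact ⟨_, hz⟩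
    rcases Nat.lt_or_ge (27 * 2 ^ f) n with h27 | h27
    swap
    · obtain ⟨z, hz⟩ := g6 (n - 26 * 2 ^ f) (by omega) (by omega)
      rw [show 2 ^ f * 26 + (n - 26 * 2 ^ f) = n by omega] at hz
      exact ⟨_, hz⟩
    rcases Nat.lt_or_ge (28 * 2 ^ f) n with h28 | h28
    swap
    · obtain ⟨z, hz⟩ := g7 (n - 27 * 2 ^ f) (by omega) (by omega)
      rw [show 2 ^ f * 27 + (n - 27 * 2 ^ f) = n by omega] at hz
      exact ⟨_, hz⟩
    · obtain ⟨z, hz⟩ := g8 (n - 28 * 2 ^ f) (by omega) (by omega)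
      rw [show 4 * 2 ^ f * 7 + (n - 28 * 2 ^ f) = n by omega] at hz
      exact ⟨_, hz⟩

/-! ## The computation up to `n = 512` -/

/-- inverse modulo a power of two by Newton iteration (only used as a guess, then checked). -/
def inv (M m : ℕ) : ℕ := Nat.rec 1 (fun _ x => x * (M + 2 - m * x % M) % M) 10

/-- the exponent of `2` in `n + 1` (for small `n`) -/
def nextD (n : ℕ) : ℕ := Nat.log2 (Nat.gcd (n + 1) 1024)

/-- next residue -/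
def nextX (X P n : ℕ) : ℕ :=
  ((X * (X + n) % 2 ^ P) / 2 ^ (nextD n) * inv (2 ^ P) ((n + 1) / 2 ^ (nextD n))) %
    2 ^ (P - nextD n)

/-- the check for one step -/
def okStep (X P n : ℕ) : Bool :=
  ((n + 1) * nextX X P n) % 2 ^ P == X * (X + n) % 2 ^ P &&
    (n + 1) % 2 ^ (nextD n + 1) != 0 && decide (nextD n ≤ P)

/-- state for index `n = j + 1`: `(ok, X, P)` meaning `x n ≡ X mod 2^P`. -/
def run (K : ℕ) (j : ℕ) : Bool × ℕ × ℕ :=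
  Nat.rec (true, 2, K) (fun j s =>
    (s.1 && okStep s.2.1 s.2.2 (j + 1), nextX s.2.1 s.2.2 (j + 1), s.2.2 - nextD (j + 1))) j

lemma run_zero (K : ℕ) : run K 0 = (true, 2, K) := rfl

lemma run_succ (K j : ℕ) : run K (j + 1) =
    ((run K j).1 && okStep (run K j).2.1 (run K j).2.2 (j + 1),
      nextX (run K j).2.1 (run K j).2.2 (j + 1), (run K j).2.2 - nextD (j + 1)) := rfl

lemma run_spec (K j : ℕ) (h : (run K j).1 = true) :
    (∃ z : ℤ_[2], X (j + 1) = ((((run K j).2.1 : ℕ) + 2 ^ (run K j).2.2 * z : ℤ_[2]) : ℚ_[2])) ∧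
    ∀ i ≤ j, ∃ w : ℤ_[2], X (i + 1) = (w : ℚ_[2]) := by
  induction j with
  | zero =>
    have hx1 : X 1 = 2 := by
      have := X_rec
      unfold X
      rw [x]
      simp
      rw [x]
      norm_num
    refine ⟨⟨0, ?_⟩, ?_⟩
    · rw [run_zero, hx1]
      push_cast
      simp
      rfl
    · intro i hi
      obtain rfl : i = 0 := by omega
      exact ⟨2, by rw [hx1]; rfl⟩
  | succ j ih =>
    rw [run_succ] at h ⊢
    simp only [Bool.and_eq_true] at h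
    obtain ⟨h1, h2⟩ := h
    obtain ⟨⟨z, hz⟩, hall⟩ := ih h1
    generalize (run K j).2.1 = a at *
    generalize (run K j).2.2 = P at *
    unfold okStep at h2
    simp only [Bool.and_eq_true, beq_iff_eq, bne_iff_ne, ne_eq, decide_eq_true_eq] at h2
    obtain ⟨⟨h3, h4⟩, h5⟩ := h2
    generalize nextX a P (j + 1) = b at *
    generalize nextD (j + 1) = d at *
    -- the recursion
    have hr := X_rec (j + 1) (by omega)
    -- congruence in `ℤ`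
    have h6 : ∃ w : ℤ, ((j + 1 + 1 : ℕ) : ℤ) * b + 2 ^ P * w = a * (a + (j + 1 : ℕ)) := by
      have h7 : ((j + 1 + 1) * b) ≡ a * (a + (j + 1)) [MOD 2 ^ P] := h3
      have h8 := (Nat.modEq_iff_dvd.1 h7)
      obtain ⟨w, hw⟩ := h8
      refine ⟨w, ?_⟩
      push_cast at hw ⊢
      linear_combination -hw
    obtain ⟨w, hw⟩ := h6
    -- `2^d / (n+1)` is a 2-adic integer
    have h7 : ∃ q : ℤ_[2], ((j + 1 + 1 : ℕ) : ℤ_[2]) * q = 2 ^ d := by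
      obtain ⟨v, m, hm, hvm⟩ := Nat.exists_eq_pow_mul_and_not_dvd (by omega : j + 1 + 1 ≠ 0) 2 (by norm_num)
      obtain ⟨t, ht⟩ := exists_inv hm
      have hvd : v ≤ d := by
        by_contra hcon
        apply h4
        apply Nat.mod_eq_zero_of_dvd
        rw [hvm]
        exact dvd_mul_of_dvd_left (pow_dvd_pow 2 (by omega)) _
      refine ⟨t * 2 ^ (d - v), ?_⟩
      have e1 : (2 : ℤ_[2]) ^ d = 2 ^ v * 2 ^ (d - v) := by
        rw [← pow_add]; congr 1; omega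
      rw [hvm, e1]
      push_cast
      linear_combination 2 ^ v * 2 ^ (d - v) * ht
    obtain ⟨q, hq⟩ := h7
    have hj0 : (((j + 1 + 1 : ℕ) : ℤ_[2]) : ℚ_[2]) ≠ 0 := by
      rw [PadicInt.coe_natCast]
      exact_mod_cast (by omega : j + 1 + 1 ≠ 0)
    have hX : X (j + 1 + 1) = ((b + 2 ^ (P - d) *
        (q * (w + 2 * a * z + 2 ^ P * z ^ 2 + (j + 1 : ℕ) * z)) : ℤ_[2]) : ℚ_[2]) := by
      apply mul_left_cancel₀ hj0
      have hr' : (((j + 1 + 1 : ℕ) : ℤ_[2]) : ℚ_[2]) * X (j + 1 + 1) =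
          ((((a : ℤ_[2]) + 2 ^ P * z) * (a + 2 ^ P * z + (j + 1 : ℕ)) : ℤ_[2]) : ℚ_[2]) := by
        rw [hz] at hr
        rw [PadicInt.coe_natCast]
        push_cast at hr ⊢
        rw [hr]
      rw [hr', ← PadicInt.coe_mul]
      have e2 : (2 : ℤ_[2]) ^ P = 2 ^ (P - d) * 2 ^ d := by
        rw [← pow_add]; congr 1; omega
      have hw' := congrArg (Int.cast : ℤ → ℤ_[2]) hw
      have e4 : ((a : ℤ_[2]) + 2 ^ P * z) * (a + 2 ^ P * z + (j + 1 : ℕ)) =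
          ((j + 1 + 1 : ℕ) : ℤ_[2]) * (b + 2 ^ (P - d) *
            (q * (w + 2 * a * z + 2 ^ P * z ^ 2 + (j + 1 : ℕ) * z))) := ?_
      · rw [e4]
      push_cast at hw' hq ⊢
      have e3 : (((j : ℤ_[2]) + 1 + 1) * (b + 2 ^ (P - d) *
        (q * (w + 2 * a * z + 2 ^ P * z ^ 2 + (j + 1) * z)))) = ((j : ℤ_[2]) + 1 + 1) * b +
        2 ^ P * (w + 2 * a * z + 2 ^ P * z ^ 2 + (j + 1) * z) := by
        rw [e2]
        generalize (2 : ℤ_[2]) ^ (P - d) = c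
        generalize (2 : ℤ_[2]) ^ d = c' at *
        linear_combination (c * (w + 2 * a * z + c * c' * z ^ 2 + (j + 1) * z)) * hq
      rw [e3]
      linear_combination -hw'
    refine ⟨⟨_, hX⟩, ?_⟩
    intro i hi
    rcases Nat.lt_or_ge i (j + 1) with h | h
    · exact hall i (by omega)
    · obtain rfl : i = j + 1 := by omega
      exact ⟨_, hX⟩

lemma run_check : (run 540 511).1 = true ∧ (run 540 511).2.1 % 256 = 128 ∧
    8 ≤ (run 540 511).2.2 := by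
  decide +kernel

lemma base : (∀ i ≤ 511, ∃ w : ℤ_[2], X (i + 1) = (w : ℚ_[2])) ∧
    ∃ r : ℤ_[2], y (2 ^ 9) = 4 ^ 8 * ((1 + 2 * r : ℤ_[2]) : ℚ_[2]) := by
  obtain ⟨h1, h2, h3⟩ := run_check
  obtain ⟨⟨z, hz⟩, hall⟩ := run_spec 540 511 h1
  refine ⟨hall, ?_⟩
  generalize (run 540 511).2.1 = a at *
  generalize (run 540 511).2.2 = P at *
  have ha : a = 128 + 256 * (a / 256) := by omega
  refine ⟨(a / 256 : ℕ) + 2 ^ (P - 8) * z, ?_⟩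
  have e1 : ((a : ℕ) : ℤ_[2]) + 2 ^ P * z = 128 * (1 + 2 * ((a / 256 : ℕ) + 2 ^ (P - 8) * z)) := by
    have h4 : ((a : ℕ) : ℤ_[2]) = 128 + 256 * ((a / 256 : ℕ) : ℤ_[2]) := by
      conv_lhs => rw [ha]
      push_cast
      ring
    have h5 : (2 : ℤ_[2]) ^ P = 2 ^ (P - 8) * 256 := by
      rw [show (256 : ℤ_[2]) = 2 ^ 8 by norm_num, ← pow_add, Nat.sub_add_cancel h3]
    rw [h4, h5]
    ring
  rw [e1] at hz
  unfold y
  rw [show (2 : ℕ) ^ 9 = 511 + 1 by norm_num, hz]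
  generalize (1 + 2 * ((a / 256 : ℕ) + 2 ^ (P - 8) * z) : ℤ_[2]) = u
  have h128 : ((128 : ℤ_[2]) : ℚ_[2]) = 128 := by
    have := PadicInt.coe_natCast (p := 2) 128
    simpa using this
  push_cast
  rw [h128]
  ring

lemma all_blocks (f : ℕ) (hf : 5 ≤ f) :
    ∃ r : ℤ_[2], y (2 ^ (f + 4)) = 4 ^ (f + 3) * ((1 + 2 * r : ℤ_[2]) : ℚ_[2]) := by
  induction f, hf using Nat.le_induction with
  | base => exact base.2
  | succ f hf ih =>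
    obtain ⟨r, hr⟩ := ih
    exact (block f r hr).1

lemma X_int (n : ℕ) : ∃ w : ℤ_[2], X n = (w : ℚ_[2]) := by
  rcases Nat.eq_zero_or_pos n with h0 | h0
  · subst h0
    refine ⟨1, ?_⟩
    unfold X
    rw [x]
    simp
  rcases Nat.lt_or_ge 512 n with h | h
  swap
  · have := base.1 (n - 1) (by omega)
    rwa [show n - 1 + 1 = n by omega] at this
  have hk1 : 2 ^ (Nat.log 2 (n - 1)) ≤ n - 1 := Nat.pow_log_le_self 2 (by omega)
  have hk2 : n - 1 < 2 ^ (Nat.log 2 (n - 1) + 1) := Nat.lt_pow_succ_log_self (by norm_num) _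
  have hk9 : 9 ≤ Nat.log 2 (n - 1) := Nat.le_log_of_pow_le (by norm_num) (by omega)
  obtain ⟨f, hf⟩ : ∃ f, Nat.log 2 (n - 1) = f + 4 := ⟨Nat.log 2 (n - 1) - 4, by omega⟩
  rw [hf] at hk1 hk2 hk9
  obtain ⟨r, hr⟩ := all_blocks f (by omega)
  obtain ⟨A, hA⟩ := (block f r hr).2 n (by omega) (by
    rw [show f + 5 = f + 4 + 1 by ring]; omega)
  obtain ⟨v, m, hm, hvm⟩ := Nat.exists_eq_pow_mul_and_not_dvd (by omega : n ≠ 0) 2 (by norm_num)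
  obtain ⟨t, ht⟩ := exists_inv hm
  have hv : v ≤ f + 5 := by
    by_contra hcon
    have h1 : 2 ^ (f + 6) ∣ n := by
      rw [hvm]
      exact dvd_mul_of_dvd_left (pow_dvd_pow 2 (by omega)) _
    have h2 := Nat.le_of_dvd h0 h1
    have h3 : 2 ^ (f + 6) = 2 * 2 ^ (f + 4 + 1) := by ring
    omega
  refine ⟨2 ^ (2 * (f + 2) - v) * A * t, ?_⟩
  have hn : (n : ℚ_[2]) ≠ 0 := by exact_mod_cast (by omega : n ≠ 0)
  apply mul_left_cancel₀ hn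
  have hy : (n : ℚ_[2]) * X n = 4 ^ (f + 2) * (A : ℚ_[2]) := hA
  rw [hy]
  have ht' : (m : ℚ_[2]) * (t : ℚ_[2]) = 1 := by
    have := congrArg (fun z : ℤ_[2] => (z : ℚ_[2])) ht
    simpa using this
  have h22 : ((2 : ℤ_[2]) : ℚ_[2]) = 2 := by
    have := PadicInt.coe_natCast (p := 2) 2
    simpa using this
  have e4 : (4 : ℚ_[2]) ^ (f + 2) = 2 ^ v * 2 ^ (2 * (f + 2) - v) := by
    rw [← pow_add, show v + (2 * (f + 2) - v) = 2 * (f + 2) by omega, pow_mul]; norm_num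
  rw [e4, hvm]
  push_cast
  rw [h22]
  linear_combination (-(2 ^ v * 2 ^ (2 * (f + 2) - v) * (A : ℚ_[2]))) * ht'

/-- Every term of the Lenstra sequence has odd denominator, i.e. is a 2-adic integer. -/
theorem result : ∀ n : ℕ, Odd (x n).den := by
  intro n
  obtain ⟨w, hw⟩ := X_int n
  by_contra hodd
  rw [Nat.not_odd_iff_even] at hodd
  have h1 : w * ((x n).den : ℤ_[2]) = ((x n).num : ℤ_[2]) := by
    apply Subtype.ext
    have h2 : x n * (x n).den = (x n).num := Rat.mul_den_eq_num _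
    have h3 := congrArg (fun q : ℚ => (q : ℚ_[2])) h2
    simp only [Rat.cast_mul, Rat.cast_natCast, Rat.cast_intCast] at h3
    rw [PadicInt.coe_mul, PadicInt.coe_natCast, PadicInt.coe_intCast, ← hw]
    exact h3
  have h2 : (((2 : ℕ) : ℤ_[2])) ^ 1 ∣ ((x n).num : ℤ_[2]) := by
    rw [← h1, pow_one]
    obtain ⟨c, hc⟩ := hodd
    refine ⟨w * c, ?_⟩
    rw [hc]
    push_cast
    ring
  have h3 := (PadicInt.pow_p_dvd_int_iff (p := 2) 1 _).1 h2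
  have h4 : 2 ∣ (x n).num.natAbs := by
    have : ((2 : ℕ) : ℤ) ∣ (x n).num := by simpa using h3
    exact Int.natCast_dvd.1 this
  have h5 := (x n).reduced
  have h6 := Nat.dvd_gcd h4 hodd.two_dvd
  rw [h5.gcd_eq_one] at h6
  omega

end Pool.Agent.Results.MP_d9e015_nt.TwoAdic
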